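import Mathlib
import Pool.Agent.J4.H6.KC.Count2
import Pool.Agent.R355.CanDeg3
import Pool.Agent.TH167.SH.Conv
import Pool.Agent.TH167.SH.Defs

set_option autoImplicit false

/-!
# A few small multiplicities bound the genus of a prime divisor

Let `C` be a prime divisor on the blow-up of the plane at `s ≥ 4` generic points over an
algebraically closed field of characteristic zero, of degree `d` and with the multiplicities `w i`.

(1) Let `B` be a set of points with `2 ≤ w i ≤ μ` for `i ∈ B`, let `j ∈ B`, and let `k` be a number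
with `(2 μ - 2) (∑_B w i ^ 2 - w j) + 2 ≤ k (dim |C| - 1 + ∑_B (2 w i - 1) - C ^ 2 - w j)`. Then
`C ^ 2 + K C = 2 p_a (C) - 2 ≤ 2 (k (C ^ 2 + w j) + (2 μ - 2) (∑_B w i ^ 2 - w j))`.

(2) If at least `b ≥ 1` multiplicities lie in `[2, m]` and `3 b + dim |C| ≥ C ^ 2 + m + 2`, then
`C ^ 2 + K C ≤ 4 b m ^ 3 (C ^ 2 + m + 1)`. (For `C ^ 2 < 0` one multiplicity is sufficient.)

(3) For all integers `a` and all `m`, `b` with `3 b ≥ a + m + 2` there is a finite set `S` of pairs
(degree, multiset of positive multiplicities), such that for ALL numbers `s` of points every prime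
divisor `C` with `C ^ 2 = a`, `K C ≥ 1` is carried by finitely many quadratic transformations to a
prime divisor at other generic points with the same `h⁰` and `h¹` whose class is standard, and which
has less than `b` multiplicities in `[2, m]` or has its class in `S`.

The bound is a bound of Castelnuovo type, for the systems `|κ (C + ∑_B w i E i)|`.
-/

namespace Pool.Agent.Results.MP_0dccba_ag.GenusFromMultiplicities

open MvPolynomial Pool.Agent.TH167 Pool.Agent.TH167.SHDefs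

/-- The dimension of `H¹` of the class `(e, w)`, computed from `H⁰`. -/
noncomputable def hOne {K : Type} [Field K] {s : ℕ} (P : Fin s → Fin 2 → K) (e : ℕ)
    (w : Fin s → ℕ) : ℤ := dimL P e w - virtdim e w

/-- The class `(e; u)` is standard: the degree is at least the sum of any three multiplicities. -/
def Standard {s : ℕ} (e : ℕ) (u : Fin s → ℕ) : Prop :=
  ∀ i j l : Fin s, i ≠ j → i ≠ l → j ≠ l → u i + u j + u l ≤ e

/-- The degree and the multiset of the nonzero multiplicities. -/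
def shape {s : ℕ} (e : ℕ) (u : Fin s → ℕ) : ℕ × Multiset ℕ :=
  (e, (Finset.univ.val.map u).filter (· ≠ 0))

/-- The number of the multiplicities in `[2, m]`. -/
def small {s : ℕ} (m : ℕ) (w : Fin s → ℕ) : ℕ := (Finset.univ.filter fun j => 2 ≤ w j ∧ w j ≤ m).card

open Pool.Agent.W609 Pool.Agent.W609.CR Pool.Agent.TH167.SH Pool.Agent.TH167.T3 Pool.Agent.TH167.TT Pool.Agent.TH167.DD in
theorem exists_dim {K : Type} [Field K] {r d : ℕ} {w : Fin (r + 4) → ℕ}
    {P : Fin (r + 4) → Fin 2 → K} {G : MvPolynomial (Fin 3) K} (hG : Irreducible G)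
    (hGd : G.IsHomogeneous d) (hord : ∀ j, Ord (aff (P j)) (w j) G) :
    ∃ n : ℕ, Module.finrank K ↥(VS (fun j => aff (P j)) w d) = n + 1 ∧ dimL P d w = n := by
  have hGm : G ∈ VS (fun j => aff (P j)) w d :=
    (mem_VS _ _ _ _).2 ⟨hGd, fun j => (hord j).1⟩
  have h1 := pos_of_mem hGm hG.ne_zero
  obtain ⟨n, hn⟩ : ∃ n, Module.finrank K ↥(VS (fun j => aff (P j)) w d) = n + 1 :=
    ⟨Module.finrank K ↥(VS (fun j => aff (P j)) w d) - 1, by omega⟩
  refine ⟨n, hn, ?_⟩
  rw [SH.dimL_eq, hn]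
  push_cast
  ring

/-- the second part -/
theorem count {K : Type} [Field K] [CharZero K] [IsAlgClosed K] {r d : ℕ} {w : Fin (r + 4) → ℕ}
    {P : Fin (r + 4) → Fin 2 → K}
    (hP : AlgebraicIndependent ℚ (fun ij : Fin (r + 4) × Fin 2 => P ij.1 ij.2))
    {C : MvPolynomial (Fin 3) K} (hC : Curve P C d w) {m b : ℕ} (hb : 1 ≤ b) (hc : b ≤ small m w)
    (h : inter d w d w + m + 2 ≤ 3 * b + dimL P d w) :
    inter d w d w + interK d w ≤ 4 * b * (m : ℤ) ^ 3 * (inter d w d w + m + 1) := by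
  obtain ⟨h1, h2, h3⟩ := SH.curve_iff.1 hC
  obtain ⟨n, hn, hn2⟩ := exists_dim h1 h2 h3
  rw [SH.inter_eq, hn2] at h
  rw [SH.inter_eq, SH.interK_eq]
  have h4 := Pool.Agent.J4.H6.KC.genus_count hP h1 h2 h3 hn hb hc h
  linarith

/-- **The theorem.** -/
theorem result :
    -- (1) the bound for a set of points
    (∀ (k : Type) [Field k] [CharZero k] [IsAlgClosed k] (s : ℕ), 4 ≤ s →
      ∀ P : Fin s → Fin 2 → k,
        AlgebraicIndependent ℚ (fun ij : Fin s × Fin 2 => P ij.1 ij.2) →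
        ∀ (d : ℕ) (w : Fin s → ℕ) (C : MvPolynomial (Fin 3) k), Curve P C d w →
          ∀ (B : Finset (Fin s)) (j : Fin s) (μ κ : ℕ), j ∈ B →
            (∀ i ∈ B, 2 ≤ w i ∧ w i ≤ μ) →
            (2 * (μ : ℤ) - 2) * (∑ i ∈ B, (w i : ℤ) ^ 2 - w j) + 2 ≤
              κ * (dimL P d w - 1 + ∑ i ∈ B, (2 * (w i : ℤ) - 1) - inter d w d w - w j) →
            inter d w d w + interK d w ≤ 2 * (κ * (inter d w d w + w j) +
              (2 * (μ : ℤ) - 2) * (∑ i ∈ B, (w i : ℤ) ^ 2 - w j))) ∧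
    -- (2) the bound for the number of small multiplicities
    (∀ (k : Type) [Field k] [CharZero k] [IsAlgClosed k] (s : ℕ), 4 ≤ s →
      ∀ P : Fin s → Fin 2 → k,
        AlgebraicIndependent ℚ (fun ij : Fin s × Fin 2 => P ij.1 ij.2) →
        ∀ (d : ℕ) (w : Fin s → ℕ) (C : MvPolynomial (Fin 3) k), Curve P C d w →
          ∀ m b : ℕ, 1 ≤ b → b ≤ small m w →
            inter d w d w + m + 2 ≤ 3 * b + dimL P d w →
            inter d w d w + interK d w ≤ 4 * b * (m : ℤ) ^ 3 * (inter d w d w + m + 1)) ∧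
    -- (3) finiteness, for all numbers of points together
    (∀ (a : ℤ) (m b : ℕ), 1 ≤ b → a + m + 2 ≤ 3 * b → ∃ S : Finset (ℕ × Multiset ℕ),
      ∀ (k : Type) [Field k] [CharZero k] [IsAlgClosed k] (s : ℕ), 4 ≤ s →
        ∀ P : Fin s → Fin 2 → k,
          AlgebraicIndependent ℚ (fun ij : Fin s × Fin 2 => P ij.1 ij.2) →
          ∀ (d : ℕ) (w : Fin s → ℕ) (C : MvPolynomial (Fin 3) k), Curve P C d w →
            inter d w d w = a → 1 ≤ interK d w →
            ∃ (P1 : Fin s → Fin 2 → k) (e : ℕ) (u : Fin s → ℕ) (G : MvPolynomial (Fin 3) k),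
              AlgebraicIndependent ℚ (fun ij : Fin s × Fin 2 => P1 ij.1 ij.2) ∧
              Curve P1 G e u ∧ Relation.ReflTransGen Quadratic (d, w) (e, u) ∧ Standard e u ∧
              inter e u e u = a ∧ interK e u = interK d w ∧
              dimL P1 e u = dimL P d w ∧ hOne P1 e u = hOne P d w ∧ e ≤ d ∧
              (small m u < b ∨ shape e u ∈ S)) := by
  classical
  refine ⟨?_, ?_, ?_⟩
  · intro k _ _ _ s hs P hP d w C hC B j μ κ hj hB hκ
    obtain ⟨r, rfl⟩ : ∃ r, s = r + 4 := ⟨s - 4, by omega⟩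
    obtain ⟨h1, h2, h3⟩ := SH.curve_iff.1 hC
    obtain ⟨n, hn, hn2⟩ := exists_dim h1 h2 h3
    have hd : 2 ≤ d := (hB j hj).1.trans (SH.van_le h1.ne_zero h2 (h3 j).1)
    have e1 : ∑ i ∈ B, (w i : ℤ) ^ 2 = ∑ i ∈ B, (w i : ℤ) * w i :=
      Finset.sum_congr rfl fun i _ => sq _
    rw [SH.inter_eq, hn2, e1] at hκ
    rw [SH.inter_eq, SH.interK_eq, e1]
    have h4 := Pool.Agent.J4.H6.KC.genus_bound2 hd hP h1 h2 h3 hn hj (fun i hi => (hB i hi).1)
      (μ := μ) (fun i hi => (hB i hi).2) (k := κ) hκ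
    linarith
  · intro k _ _ _ s hs P hP d w C hC m b hb hc h
    obtain ⟨r, rfl⟩ : ∃ r, s = r + 4 := ⟨s - 4, by omega⟩
    exact count hP hC hb hc h
  · intro a m b hb hab
    obtain ⟨A, hA⟩ : ∃ A, A = max a 0 := ⟨_, rfl⟩
    have hA1 : a ≤ A := hA ▸ le_max_left a 0
    have hA0 : 0 ≤ A := hA ▸ le_max_right a 0
    obtain ⟨c0, hc0⟩ : ∃ c0 : ℤ, c0 = max (4 * b * (m : ℤ) ^ 3 * (a + m + 1) - a) 1 := ⟨_, rfl⟩
    have hc1 : 4 * b * (m : ℤ) ^ 3 * (a + m + 1) - a ≤ c0 := hc0 ▸ le_max_left _ _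
    have hc2 : 1 ≤ c0 := hc0 ▸ le_max_right _ _
    obtain ⟨B, hB⟩ : ∃ B : ℕ, B = (3 * (A + (2 * c0 + A) ^ 2) + 6 * (c0 + A)).toNat := ⟨_, rfl⟩
    obtain ⟨N, hN⟩ : ∃ N : ℕ, N = (9 + 2 * c0 + A).toNat := ⟨_, rfl⟩
    refine ⟨Finset.range (B + 1) ×ˢ (N • (Multiset.range (B + 1))).powerset.toFinset,
      fun k _ _ _ s hs P hP d w C hC ha hcc => ?_⟩
    obtain ⟨r, rfl⟩ : ∃ r, s = r + 4 := ⟨s - 4, by omega⟩
    obtain ⟨h1, h2, h3⟩ := SH.curve_iff.1 hC
    rw [SH.inter_eq] at ha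
    rw [SH.interK_eq] at hcc
    have hne : ¬ (SH.ip d w d w = -1 ∧ SH.kk d w = 1) := fun h0 => by
      rw [h0.2] at hcc
      linarith
    obtain ⟨P1, e, u, G, b1, b2, b3, b4, b5, b6, b7, b8⟩ :=
      Pool.Agent.R355.CanDeg.std_dim d P hP w C h1 h2 h3 hne
    obtain ⟨q1, q2, q3⟩ := SH.quad_inv b5
    simp only at q1 q2 q3
    have hne' : ¬ (SH.ip e u e u = -1 ∧ SH.kk e u = 1) := by
      rw [q3, q2]
      exact hne
    have hdim : dimL P1 e u = dimL P d w := by
      rw [SH.dimL_eq, SH.dimL_eq, b8]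
    have hcurve : Curve P1 G e u := SH.curve_iff.2 ⟨b2, b3, b4⟩
    refine ⟨P1, e, u, G, b1, hcurve, SH.chain_conv b5, b6,
      by rw [SH.inter_eq, q3, ha], by rw [SH.interK_eq, SH.interK_eq, q2], hdim, ?_, b7, ?_⟩
    · unfold hOne
      rw [hdim, SH.virtdim_eq, SH.virtdim_eq, q1]
    · rcases lt_or_ge (small m u) b with hlt | hge
      · exact Or.inl hlt
      · right
        obtain ⟨n, hn, hn2⟩ := exists_dim b2 b3 b4
        have hbound := count b1 hcurve hb hge (by
          rw [SH.inter_eq, q3, ha, hn2]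
          have : (0 : ℤ) ≤ n := Int.natCast_nonneg n
          linarith)
        rw [SH.inter_eq, SH.interK_eq, q3, ha, q2] at hbound
        obtain ⟨c, hc⟩ : ∃ c : ℤ, c = -SH.kk d w := ⟨_, rfl⟩
        have hcc' : 1 ≤ c := by rw [hc]; exact hcc
        have hc3 : c ≤ c0 := by linarith
        obtain ⟨f1, f2⟩ := Pool.Agent.R355.CanDeg.red_finite b1 b2 b3 b4 hne' b6 (a := a) (A := A)
          (c := c) (by rw [q3, ha]) hA1 hA0 hcc' (by rw [q2, hc]; ring)
        refine Pool.Agent.R355.CanDeg.shape_mem (B := B) (N := N) ?_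
          (fun j => SH.van_le b2.ne_zero b3 (b4 j).1) ?_
        · have h4 : (2 * e : ℤ) ≤ (B : ℤ) := by
            rw [hB]
            have h5 : 3 * (A + (2 * c + A) ^ 2) + 6 * (c + A) ≤
                3 * (A + (2 * c0 + A) ^ 2) + 6 * (c0 + A) := by
              have h6 : (2 * c + A) ^ 2 ≤ (2 * c0 + A) ^ 2 :=
                pow_le_pow_left₀ (by linarith) (by linarith) 2
              linarith
            exact (f1.trans h5).trans (Int.self_le_toNat _)
          omega
        · have h4 : ((Finset.univ.filter fun j => u j ≠ 0).card : ℤ) ≤ (N : ℤ) := by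
            rw [hN]
            have h5 : 9 + 2 * c + A ≤ 9 + 2 * c0 + A := by linarith
            exact (f2.trans h5).trans (Int.self_le_toNat _)
          exact_mod_cast h4

end Pool.Agent.Results.MP_0dccba_ag.GenusFromMultiplicities
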