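import Mathlib
import Pool.Agent.J4.H74.MulExp.Seq

set_option autoImplicit false

/-!
# Classes of prime divisors whose multiplicities are values of multiplicative functions

Let `f` be a multiplicative function with positive integer values, at most of polynomial growth, such that `f(p) = b p + a` for all large
primes `p` (`b ≥ 1` and `a` fixed integers), for instance Euler's function `φ(t)` or the sum of the divisors `σ(t)`. Let `c ≥ 1`, `e ≥ 0`
be integers. (The values of `φ` and `σ` form sets of density zero.)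

(1) For at least the proportion `1 / 10000 ^ 22` of the integers `t` in `(N, 2 N]`, `N` large: for EVERY number `n ≥ 10` of points
and EVERY degree `d` the class `d H - m (E 1 + ... + E n)`, `m = c f(t) + e`, at `n` generic points has the expected `h⁰`, and `h¹ = 0` if
it is effective (for instance the class of a prime divisor).

(2) For every `n ≥ 10`, `δ > 0` and `N` large, for at most the proportion `bad n + δ` of the integers `t` in `(N, 2 N]` one of the
classes `d H - ∑ w i E i` with `w i ∈ {m, m + 1}` and the sum of the multiplicities `c f(t) + e` does not have the property; `bad n < 1`,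
`bad n = 0` if `n` is a square, `bad 10 < 0.163`.

Proof. The plane systems are those of helper141 (`Pool.Agent.N141.SG`): a multiplicity `m` is good for all numbers of points if the
numbers `m √r` lie in certain arcs modulo one for 20 radicands `r`. The new ingredient is the theorem that the exponential sums
`∑_{t ≤ N} e(γ f(t))` are `o(N)` for all irrational algebraic numbers `γ` (`Pool.Agent.J4.H74.MulExp.small`): by the Turán-Kubilius
inequality one may sum over `t = p q k` with primes `p`, `q` of suitable ranges, where `f(t) = f(k) (b p + a) (b q + a)` for most `t`; this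
is a bilinear sum in `p` and `q` unless a small multiple of `γ f(k) b ^ 2` is very near to an integer; by Liouville's inequality the values
`f(k)` with this property belong to a sparse set, and a multiplicative function of this kind has few values in a sparse set
(`Pool.Agent.N733.TG`).
-/

namespace Pool.Agent.Results.MP_0dccba_ag.MultiplicativeMultiplicities

open MvPolynomial Filter

/-- Forms of degree `d` vanishing to order at least `w i` at the points `(P i 0 : P i 1 : 1)`: the
sections of the class `d H - ∑ w i E i` on the blow-up at the points `P i`. -/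
noncomputable def forms {n : ℕ} (P : Fin n → Fin 2 → ℂ) (d : ℕ) (w : Fin n → ℕ) :
    Submodule ℂ (MvPolynomial (Fin 3) ℂ) :=
  homogeneousSubmodule (Fin 3) ℂ d ⊓
    Submodule.restrictScalars ℂ
      (⨅ i : Fin n, (Ideal.span ({X 0 - C (P i 0) * X 2, X 1 - C (P i 1) * X 2} :
        Set (MvPolynomial (Fin 3) ℂ))) ^ (w i))

/-- For generic points over `ℂ` (the `2 n` coordinates are algebraically independent over `ℚ`) and for
every degree `d`: the space of the forms has the expected dimension, and if the class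
`D = d H - ∑ w i E i` is effective then `h⁰ (D) = χ (D)`, that is, `h¹ (D) = 0`. -/
def H1Zero {n : ℕ} (w : Fin n → ℕ) : Prop :=
  ∀ P : Fin n → Fin 2 → ℂ, AlgebraicIndependent ℚ (fun ij : Fin n × Fin 2 => P ij.1 ij.2) →
    ∀ d : ℕ, Module.finrank ℂ ↥(forms P d w) = (d + 2).choose 2 - ∑ i, (w i + 1).choose 2 ∧
      ((∃ G ∈ forms P d w, G ≠ 0) →
        Module.finrank ℂ ↥(forms P d w) + ∑ i, (w i + 1).choose 2 = (d + 2).choose 2)

/-- The multiplicity `m ≥ 1` is good for every number `n ≥ 10` of points and every degree. -/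
def Holds (m : ℕ) : Prop := 1 ≤ m ∧ ∀ n : ℕ, 10 ≤ n → H1Zero (fun _ : Fin n => m)

/-- All vectors of `n` positive multiplicities with sum `W` which take at most two consecutive values
`m`, `m + 1` are good in every degree. -/
def Good (n W : ℕ) : Prop :=
  ∀ m : ℕ, 0 < m → ∀ w : Fin n → ℕ, (∀ i, w i = m ∨ w i = m + 1) → ∑ i, w i = W → H1Zero w

open Classical in
/-- The bound for the proportion of the bad sums for `n` points. -/
noncomputable def bad (n : ℕ) : ℝ :=
  if IsSquare n then 0
  else (min (√(n : ℝ) - 3) (2 / 3 + 9 / (4 * √(n : ℝ))) +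
    min (√(n : ℝ) - 3) (2 / 3 + 1 / (4 * √(n : ℝ)))) / 2

/-- Multiplicative functions with positive values and of polynomial growth which are `b p + a` at all large primes `p`. -/
structure LinearAtPrimes (f : ℕ → ℕ) : Prop where
  mul : ∀ m n : ℕ, Nat.Coprime m n → f (m * n) = f m * f n
  pos : ∀ m : ℕ, 1 ≤ m → 1 ≤ f m
  growth : ∃ C D : ℕ, ∀ m : ℕ, 1 ≤ m → f m ≤ C * m ^ D
  prime : ∃ (P b : ℕ) (a : ℤ), 1 ≤ b ∧ ∀ p : ℕ, P ≤ p → p.Prime → (f p : ℤ) = b * p + a

/-- The number of the integers `t` with `N < t ≤ 2 N` and `p t`. -/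
noncomputable def count (p : ℕ → Prop) (N : ℕ) : ℝ := ({t : ℕ | N < t ∧ t ≤ 2 * N ∧ p t}.ncard : ℝ)

theorem h1zero_of {n : ℕ} {w : Fin n → ℕ} (h : Pool.Agent.N141.SG.ExN w) : H1Zero w := by
  obtain ⟨F, hF, hF'⟩ := h
  intro P hP d
  have h1 := hF' P (fun h0 => hF (hP.eq_zero_of_aeval_eq_zero F h0)) d
  refine ⟨h1, ?_⟩
  rintro ⟨G, hGm, hG⟩
  unfold forms at hGm ⊢
  rw [Submodule.mem_inf, Submodule.restrictScalars_mem, Ideal.mem_iInf] at hGm
  exact h1.eff hG hGm.1 hGm.2

theorem bad_ten : bad 10 < 0.163 := by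
  have h1 : √((10 : ℕ) : ℝ) < 3.163 := by
    rw [Real.sqrt_lt' (by norm_num)]
    norm_num
  have h0 : ¬ IsSquare 10 := by
    rintro ⟨k, hk⟩
    have : k ≤ 3 := by nlinarith
    interval_cases k <;> omega
  unfold bad
  rw [if_neg h0]
  have h2 := min_le_left (√((10 : ℕ) : ℝ) - 3) (2 / 3 + 9 / (4 * √((10 : ℕ) : ℝ)))
  have h3 := min_le_left (√((10 : ℕ) : ℝ) - 3) (2 / 3 + 1 / (4 * √((10 : ℕ) : ℝ)))
  linarith

theorem good_of {n W : ℕ} (h : Pool.Agent.N141.SG.GoodN n W) : Good n W :=
  fun m hm w hw hsum => h1zero_of (h m hm w hw hsum)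

theorem holds_of {m : ℕ} (hm : 1 ≤ m) (h : Pool.Agent.N141.SG.Tgt (m : ℕ)) : Holds m :=
  ⟨hm, fun _ hn => h1zero_of (w := fun _ => m) (Pool.Agent.N141.SG.every h hm hn)⟩

/-- counting in subsets -/
theorem count_le {N : ℕ} {p q : ℕ → Prop} (h : ∀ t, N < t → p t → q t) :
    ({t : ℕ | t ∈ Finset.Ioc N (2 * N) ∧ p t}.ncard : ℝ) ≤ count q N := by
  have h1 : {t : ℕ | t ∈ Finset.Ioc N (2 * N) ∧ p t} ⊆ {t : ℕ | N < t ∧ t ≤ 2 * N ∧ q t} :=
    fun t ht => ⟨(Finset.mem_Ioc.1 ht.1).1, (Finset.mem_Ioc.1 ht.1).2, h t (Finset.mem_Ioc.1 ht.1).1 ht.2⟩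
  unfold count
  exact_mod_cast Set.ncard_le_ncard h1
    ((Finset.finite_toSet (Finset.Ioc N (2 * N))).subset fun t ht =>
      Finset.mem_coe.2 (Finset.mem_Ioc.2 ⟨ht.1, ht.2.1⟩))

theorem count_le' {N : ℕ} {p q : ℕ → Prop} (h : ∀ t, N < t → p t → q t) :
    count p N ≤ ({t : ℕ | t ∈ Finset.Ioc N (2 * N) ∧ q t}.ncard : ℝ) := by
  have h1 : {t : ℕ | N < t ∧ t ≤ 2 * N ∧ p t} ⊆ {t : ℕ | t ∈ Finset.Ioc N (2 * N) ∧ q t} :=
    fun t ht => ⟨Finset.mem_Ioc.2 ⟨ht.1, ht.2.1⟩, h t ht.1 ht.2.2⟩
  unfold count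
  exact_mod_cast Set.ncard_le_ncard h1
    ((Finset.finite_toSet (Finset.Ioc N (2 * N))).subset fun t ht => ht.1)

/-- **Main result.** -/
theorem result :
    (∀ f : ℕ → ℕ, LinearAtPrimes f → ∀ c e : ℕ, 1 ≤ c →
      (∀ᶠ N : ℕ in atTop, 1 / 10000 ^ 22 * (N : ℝ) ≤ count (fun t => Holds (c * f t + e)) N) ∧
      ∀ n : ℕ, 10 ≤ n → ∀ δ : ℝ, 0 < δ → ∀ᶠ N : ℕ in atTop,
        count (fun t => ¬ Good n (c * f t + e)) N ≤ (bad n + δ) * (N : ℝ)) ∧
    LinearAtPrimes Nat.totient ∧ LinearAtPrimes (fun t => ∑ d ∈ t.divisors, d) ∧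
    (∀ n : ℕ, 10 ≤ n → bad n < 1) ∧ bad 10 < 0.163 := by
  refine ⟨fun f hf c e hc => ?_, ?_, ?_, fun n hn => Pool.Agent.N141.SG.badN_lt hn, bad_ten⟩
  · have hf' : Pool.Agent.J4.H74.MulExp.Aff f := ⟨hf.mul, hf.pos, hf.growth, hf.prime⟩
    constructor
    · filter_upwards [Pool.Agent.J4.H74.MulExp.tgt_mul hf' hc e] with N hN
      refine hN.trans (count_le fun t ht h => ?_)
      have h1 := hf.pos t (by omega)
      have h2 : 1 ≤ c * f t := Nat.mul_pos hc h1
      exact holds_of (by omega) h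
    · intro n hn δ hδ
      filter_upwards [Pool.Agent.J4.H74.MulExp.near_mul hn hf' hc e hδ] with N hN
      exact (count_le' fun t _ ht h1 => ht (good_of h1)).trans hN
  · have h := Pool.Agent.J4.H74.MulExp.aff_totient
    exact ⟨h.mul, h.pos, h.growth, h.prime⟩
  · have h := Pool.Agent.J4.H74.MulExp.aff_sigma
    exact ⟨h.mul, h.pos, h.growth, h.prime⟩

end Pool.Agent.Results.MP_0dccba_ag.MultiplicativeMultiplicities
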