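import Mathlib
import Pool.Agent.J4.H39.RM.Inv

set_option autoImplicit false

/-!
# Classes of prime divisors whose multiplicities are residues of rational functions modulo large primes

Let `p` be a large prime and let `f_1, ..., f_k` be rational functions of bounded degree over the field with `p` elements, whose poles
are simple and rational, such that no non-trivial linear combination of them is a polynomial of degree at most one. The multiplicities
are the least residues `f_i(x) mod p` at the integers `x` of an interval of length `L ≥ p ^ (1/2 + δ)`; for instance, for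
`f_i = 1 / (x + i)`, the modular inverses of `k` consecutive integers.

(1) For a positive proportion (`1 / 10000 ^ (20 (k + 1) + 2)`) of the integers `x` of EVERY such interval, all the multiplicities
`m = x, f_1(x) mod p, ..., f_k(x) mod p` are good at the same time: for EVERY number `n ≥ 10` of points and EVERY degree `d` the class
`d H - m (E 1 + ... + E n)` at `n` generic points has the expected `h⁰`, and `h¹ = 0` if it is effective (for instance the class of a
prime divisor).

(2) For every single `n ≥ 10` and every `i`, for at most the proportion `bad n + ε` of the `x` in every such interval one of the classes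
`d H - ∑ w j E j` with `w j ∈ {m, m + 1}`, `m ≥ 1`, and the sum of the multiplicities `f_i(x) mod p` does not have the property;
`bad n < 1`, `bad n = 0` if `n` is a square, `bad 10 < 0.163`.

The implied bounds for `p` depend only on `k`, the bound of the degrees, `δ` (and `n`, `ε`), not on the rational functions and the
interval.

Proof. The plane systems are those of helper141 (`Pool.Agent.N141.SG`): a multiplicity `m` is good for all numbers of points if the
numbers `m √r` lie in certain arcs modulo one for 20 radicands `r`. Here we need the joint distribution modulo one of the numbers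
`x √r` and `√r (f_i(x) mod p)`. The exponential sums `∑ e(θ_0 x + ∑ θ_i (f_i(x) mod p))` with arbitrary real frequencies, each of them
zero or irrational, not all zero, are `o(L)`: we expand the functions `e(θ m)`, `0 ≤ m < p`, into additive characters modulo `p` (their
Fourier coefficients have an `ℓ¹` norm `O(log p)`) and use Weil's bound for the complete sums with `h_1 f_1 + ... + h_k f_k + c x`
(`Pool.Agent.J4.H39.WR`); the zero frequency gives geometric sums.
-/

namespace Pool.Agent.Results.MP_0dccba_ag.ResiduesOfRationalFunctions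

open MvPolynomial

/-- Forms of degree `d` vanishing to order at least `w i` at the points `(P i 0 : P i 1 : 1)`: the
sections of the class `d H - ∑ w i E i` on the blow-up at the points `P i`. -/
noncomputable def forms {n : ℕ} (P : Fin n → Fin 2 → ℂ) (d : ℕ) (w : Fin n → ℕ) :
    Submodule ℂ (MvPolynomial (Fin 3) ℂ) :=
  homogeneousSubmodule (Fin 3) ℂ d ⊓
    Submodule.restrictScalars ℂ
      (⨅ i : Fin n, (Ideal.span ({X 0 - C (P i 0) * X 2, X 1 - C (P i 1) * X 2} :
        Set (MvPolynomial (Fin 3) ℂ))) ^ (w i))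

/-- For generic points over `ℂ` (the `2 n` coordinates are algebraically independent over `ℚ`) and for
every degree `d`: the space of the forms has the expected dimension, and if the class
`D = d H - ∑ w i E i` is effective then `h⁰ (D) = χ (D)`, that is, `h¹ (D) = 0`. -/
def H1Zero {n : ℕ} (w : Fin n → ℕ) : Prop :=
  ∀ P : Fin n → Fin 2 → ℂ, AlgebraicIndependent ℚ (fun ij : Fin n × Fin 2 => P ij.1 ij.2) →
    ∀ d : ℕ, Module.finrank ℂ ↥(forms P d w) = (d + 2).choose 2 - ∑ i, (w i + 1).choose 2 ∧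
      ((∃ G ∈ forms P d w, G ≠ 0) →
        Module.finrank ℂ ↥(forms P d w) + ∑ i, (w i + 1).choose 2 = (d + 2).choose 2)

/-- The multiplicity `m ≥ 1` is good for every number `n ≥ 10` of points and every degree. -/
def Holds (m : ℕ) : Prop := 1 ≤ m ∧ ∀ n : ℕ, 10 ≤ n → H1Zero (fun _ : Fin n => m)

/-- All vectors of `n` positive multiplicities with sum `W` which take at most two consecutive values
`m`, `m + 1` are good in every degree. -/
def Good (n W : ℕ) : Prop :=
  ∀ m : ℕ, 0 < m → ∀ w : Fin n → ℕ, (∀ i, w i = m ∨ w i = m + 1) → ∑ i, w i = W → H1Zero w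

open Classical in
/-- The bound for the proportion of the bad sums for `n` points. -/
noncomputable def bad (n : ℕ) : ℝ :=
  if IsSquare n then 0
  else (min (√(n : ℝ) - 3) (2 / 3 + 9 / (4 * √(n : ℝ))) +
    min (√(n : ℝ) - 3) (2 / 3 + 1 / (4 * √(n : ℝ)))) / 2

/-- The least non-negative residue of the value at the integer `x` of the rational function
`P + ∑ b ∈ B, H b / (X - b)` over the integers modulo `p`. -/
def value (p : ℕ) (P : Polynomial (ZMod p)) (B : Finset (ZMod p)) (H : ZMod p → ZMod p) (x : ℕ) :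
    ℕ :=
  (P.eval (x : ZMod p) + ∑ b ∈ B, H b * ((x : ZMod p) - b)⁻¹).val

/-- The rational functions `P i + ∑ b ∈ B, H i b / (X - b)` have polynomial parts of degree at most
`d` and at most `d` poles, and no non-trivial linear combination of them is a polynomial of degree at
most one. -/
structure Family (p k d : ℕ) (P : Fin k → Polynomial (ZMod p)) (B : Finset (ZMod p))
    (H : Fin k → ZMod p → ZMod p) : Prop where
  degree : ∀ i, (P i).natDegree ≤ d
  poles : B.card ≤ d
  independent : ∀ h : Fin k → ZMod p, h ≠ 0 →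
    (∃ b ∈ B, ∑ i, h i * H i b ≠ 0) ∨ 2 ≤ (∑ i, Polynomial.C (h i) * P i).natDegree

/-- The number of the integers `x` with `a ≤ x < a + L` and `q x`. -/
noncomputable def count (a L : ℕ) (q : ℕ → Prop) : ℝ := ({x : ℕ | a ≤ x ∧ x < a + L ∧ q x}.ncard : ℝ)

theorem h1zero_of {n : ℕ} {w : Fin n → ℕ} (h : Pool.Agent.N141.SG.ExN w) : H1Zero w := by
  obtain ⟨F, hF, hF'⟩ := h
  intro P hP d
  have h1 := hF' P (fun h0 => hF (hP.eq_zero_of_aeval_eq_zero F h0)) d
  refine ⟨h1, ?_⟩
  rintro ⟨G, hGm, hG⟩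
  unfold forms at hGm ⊢
  rw [Submodule.mem_inf, Submodule.restrictScalars_mem, Ideal.mem_iInf] at hGm
  exact h1.eff hG hGm.1 hGm.2

theorem bad_ten : bad 10 < 0.163 := by
  have h1 : √((10 : ℕ) : ℝ) < 3.163 := by
    rw [Real.sqrt_lt' (by norm_num)]
    norm_num
  have h0 : ¬ IsSquare 10 := by
    rintro ⟨k, hk⟩
    have : k ≤ 3 := by nlinarith
    interval_cases k <;> omega
  unfold bad
  rw [if_neg h0]
  have h2 := min_le_left (√((10 : ℕ) : ℝ) - 3) (2 / 3 + 9 / (4 * √((10 : ℕ) : ℝ)))
  have h3 := min_le_left (√((10 : ℕ) : ℝ) - 3) (2 / 3 + 1 / (4 * √((10 : ℕ) : ℝ)))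
  linarith

theorem good_of {n W : ℕ} (h : Pool.Agent.N141.SG.GoodN n W) : Good n W :=
  fun m hm w hw hsum => h1zero_of (h m hm w hw hsum)

theorem holds_of {m : ℕ} (h : Pool.Agent.N141.SG.Tgt (m : ℕ)) : Holds m := by
  have hm : 1 ≤ m := by
    rcases Nat.eq_zero_or_pos m with h0 | h0
    · subst h0
      exact absurd h (by exact_mod_cast Pool.Agent.J4.H39.RM.not_tgt_zero)
    · exact h0
  exact ⟨hm, fun _ hn => h1zero_of (w := fun _ => m) (Pool.Agent.N141.SG.every h hm hn)⟩

/-- the data of the library -/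
def data {p k d : ℕ} {P : Fin k → Polynomial (ZMod p)} {B : Finset (ZMod p)}
    {H : Fin k → ZMod p → ZMod p}
    (hp : p.Prime) (h : Family p k d P B H) {δ : ℝ} {a L : ℕ} (hL : L ≤ p)
    (hL' : (p : ℝ) ^ (1 / 2 + δ) ≤ L) : Pool.Agent.J4.H39.RM.Data k d δ :=
  ⟨p, hp, P, B, H, h.degree, h.poles, h.independent, a, L, hL, hL'⟩

theorem count_le {a L : ℕ} {q : ℕ → Prop} {s : Set ℕ} (h : ∀ x ∈ s, a ≤ x ∧ x < a + L ∧ q x) :
    (s.ncard : ℝ) ≤ count a L q := by
  unfold count
  exact_mod_cast Set.ncard_le_ncard (t := {x : ℕ | a ≤ x ∧ x < a + L ∧ q x}) h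
    ((Set.finite_Ico a (a + L)).subset fun x hx => ⟨hx.1, hx.2.1⟩)

theorem le_count {a L : ℕ} {q : ℕ → Prop} {s : Set ℕ} (hs : s.Finite)
    (h : ∀ x, a ≤ x → x < a + L → q x → x ∈ s) : count a L q ≤ (s.ncard : ℝ) := by
  unfold count
  exact_mod_cast Set.ncard_le_ncard (s := {x : ℕ | a ≤ x ∧ x < a + L ∧ q x})
    (fun x hx => h x hx.1 hx.2.1 hx.2.2) hs

/-- **Main result.** -/
theorem result (k d : ℕ) (δ : ℝ) (hδ : 0 < δ) :
    -- (1) the argument and all the residues at the same time
    (∃ p₀ : ℕ, ∀ p : ℕ, p.Prime → p₀ ≤ p →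
      ∀ (P : Fin k → Polynomial (ZMod p)) (B : Finset (ZMod p)) (H : Fin k → ZMod p → ZMod p),
      Family p k d P B H → ∀ a L : ℕ, L ≤ p → (p : ℝ) ^ (1 / 2 + δ) ≤ L →
      1 / 10000 ^ (20 * (k + 1) + 2) * (L : ℝ) ≤ count a L (fun x => (x : ZMod p) ∉ B ∧
        Holds x ∧ ∀ i, Holds (value p (P i) B (H i) x))) ∧
    -- for example the inverses modulo `p` of `k` consecutive integers
    (∃ p₀ : ℕ, ∀ p : ℕ, p.Prime → p₀ ≤ p → ∀ a L : ℕ, L ≤ p → (p : ℝ) ^ (1 / 2 + δ) ≤ L →
      1 / 10000 ^ (20 * (k + 1) + 2) * (L : ℝ) ≤ count a L (fun x =>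
        Holds x ∧ ∀ i : Fin k, ¬ p ∣ x + i ∧ Holds (((x + i : ℕ) : ZMod p)⁻¹.val))) ∧
    -- (2) one number of points
    (∀ n : ℕ, 10 ≤ n → ∀ ε : ℝ, 0 < ε → ∃ p₀ : ℕ, ∀ p : ℕ, p.Prime → p₀ ≤ p →
      ∀ (P : Fin k → Polynomial (ZMod p)) (B : Finset (ZMod p)) (H : Fin k → ZMod p → ZMod p),
      Family p k d P B H → ∀ a L : ℕ, L ≤ p → (p : ℝ) ^ (1 / 2 + δ) ≤ L → ∀ i : Fin k,
      count a L (fun x => (x : ZMod p) ∉ B ∧ ¬ Good n (value p (P i) B (H i) x)) ≤
        (bad n + ε) * L) ∧
    (∀ n : ℕ, 10 ≤ n → bad n < 1) ∧ bad 10 < 0.163 := by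
  classical
  refine ⟨?_, ?_, ?_, fun n hn => Pool.Agent.N141.SG.badN_lt hn, bad_ten⟩
  · obtain ⟨p₀, hp₀⟩ := Pool.Agent.J4.H39.RM.joint k d hδ
    refine ⟨p₀, fun p hp hpp P B H hF a L hL hL' => ?_⟩
    refine (hp₀ (data hp hF (a := a) hL hL') hpp).trans (count_le ?_)
    rintro x ⟨hx, hT⟩
    obtain ⟨h1, h2, h3⟩ := ((data hp hF (a := a) hL hL').mem_I x).1 hx
    exact ⟨h1, h2, h3, holds_of (hT 0), fun i => holds_of (hT i.succ)⟩
  · obtain ⟨p₀, hp₀⟩ := Pool.Agent.J4.H39.RM.joint k k hδ
    refine ⟨max p₀ k, fun p hp hpp a L hL hL' => ?_⟩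
    have hkp : k ≤ p := (le_max_right _ _).trans hpp
    have hF : Family p k k (fun _ => 0) (Pool.Agent.J4.H39.RM.poleSet p k)
        (Pool.Agent.J4.H39.RM.resid p k) :=
      ⟨fun _ => by simp, Pool.Agent.J4.H39.RM.card_poleSet p k,
        Pool.Agent.J4.H39.RM.ind_inv p k hkp⟩
    refine (hp₀ (data hp hF (a := a) hL hL') ((le_max_left _ _).trans hpp)).trans (count_le ?_)
    rintro x ⟨hx, hT⟩
    obtain ⟨h1, h2, h3⟩ := ((data hp hF (a := a) hL hL').mem_I x).1 hx
    refine ⟨h1, h2, holds_of (hT 0), fun i => ⟨Pool.Agent.J4.H39.RM.not_mem_poleSet p k h3 i, ?_⟩⟩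
    have h4 := hT i.succ
    have h5 : (data hp hF (a := a) hL hL').w i.succ x = ((x + i : ℕ) : ZMod p)⁻¹.val := by
      rw [Nat.cast_add, ← Pool.Agent.J4.H39.RM.value_inv p k i x]
      rfl
    rw [h5] at h4
    exact holds_of h4
  · intro n hn ε hε
    obtain ⟨p₀, hp₀⟩ := Pool.Agent.J4.H39.RM.near k d hδ hn hε
    refine ⟨p₀, fun p hp hpp P B H hF a L hL hL' i => ?_⟩
    refine (le_count ?_ ?_).trans (hp₀ (data hp hF (a := a) hL hL') hpp i.succ)
    · exact (Finset.finite_toSet (data hp hF (a := a) hL hL').I).subset fun x hx => hx.1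
    · intro x h1 h2 h3
      refine ⟨((data hp hF (a := a) hL hL').mem_I x).2 ⟨h1, h2, h3.1⟩, ?_,
        fun h4 => h3.2 (good_of h4)⟩
      -- the sum zero is impossible
      rcases Nat.eq_zero_or_pos (value p (P i) B (H i) x) with h0 | h0
      · exfalso
        apply h3.2
        intro m hm w hw hsum
        rw [h0] at hsum
        have h5 : w ⟨0, by omega⟩ = 0 := by
          have h6 := Finset.sum_eq_zero_iff.1 hsum
          exact h6 _ (Finset.mem_univ _)
        rcases hw ⟨0, by omega⟩ with h7 | h7 <;> omega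
      · exact h0

end Pool.Agent.Results.MP_0dccba_ag.ResiduesOfRationalFunctions
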