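import Mathlib
import Pool.Agent.J4.H25.Gl.Steps

set_option autoImplicit false

/-!
# Prime divisors with `h¹ ≠ 0` and the classes settled by gluing groups of points

Let `k` be a field of characteristic zero and `X` the blow-up of the plane at `s` generic points.
`Settled N0 d M` is an explicit inductive class of pairs of a degree `d` and a multiset `M` of
multiplicities. The classes `d H - ∑ w i E i` with `(d, w)` settled have
`h⁰ = max (χ, 0)`. If `C` is a prime divisor of class `(d, w)` on `X`, `s ≥ 4`, then `h¹ (C) = 0`, or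
finitely many quadratic transformations carry `(d, w)` to a standard class with the same `h⁰` which is
special and not settled.

The basic settled classes are the standard ones with at most nine multiplicities larger than `2`
(Harbourne, and the starting library), those of a single point, and the standard `Good` classes, the
`Large` classes and the `Regular` vectors of the starting library. The class is closed under
* adding simple points, decreasing the multiplicities or increasing the degree if `χ ≥ 0`,
  increasing the multiplicities or decreasing the degree if `χ ≤ 0`;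
* quadratic transformations of classes which meet the three lines nonnegatively, and the removal of
  a line through two points which meets the class in `-1` (or less, if the rest has `χ ≤ 0`);
* **gluing**: the points are divided into groups. A group has the size `c` if
  `c (c - 1) / 2 ≤ ∑ m (m + 1) / 2 ≤ c (c + 1) / 2` (a point: its multiplicity). If all groups are
  settled in the degrees `c - 1` and `c - 2`, and if all classes of degree `d` with one point of
  multiplicity `c` or `c - 1` instead of each group are settled, then the class is settled.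

For example `h¹ (C) = 0` if in a standard form of `C` with the multiplicities `m₁ ≥ m₂ ≥ m₃ ≥ …` the
points after the third one form six groups of sizes at most `m₃`, and any number of groups of sizes
at most `2`, which are settled in the two degrees.
-/

namespace Pool.Agent.Results.MP_0dccba_ag.SettledClasses

open MvPolynomial Pool.Agent.TH167.SHDefs
open Pool.Agent.Y536.SH (Standard)
open Pool.Agent.Y205.AV (Large)
open Pool.Agent.Y939.NC (Good Regular)

/-- `h¹` of the class `d H - ∑ w i E i`: the dimension of the linear system minus the virtual one. -/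
noncomputable def hOne {k : Type} [Field k] {s : ℕ} (P : Fin s → Fin 2 → k) (d : ℕ)
    (w : Fin s → ℕ) : ℤ := dimL P d w - virtdim d w

/-- The number of conditions. -/
def cond (M : Multiset ℕ) : ℕ := (M.map fun a => (a + 1).choose 2).sum

/-- The settled pairs of a degree and a multiset of multiplicities. -/
inductive Settled (N0 : ℕ) : ℕ → Multiset ℕ → Prop
  /-- a single point -/
  | point (d b : ℕ) : Settled N0 d {b}
  /-- standard classes with at most nine multiplicities larger than two -/
  | nine {d : ℕ} {M : Multiset ℕ} (h9 : (M.filter fun a => 2 < a).card ≤ 9)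
      (h : ∀ T ≤ M, T.card ≤ 3 → T.sum ≤ d) : Settled N0 d M
  | regular {d k : ℕ} (v : Fin k → ℕ) (h : Regular N0 v) : Settled N0 d (∑ i, {v i})
  | large {d n : ℕ} (w : Fin n → ℕ) (h : Large d w) : Settled N0 d (∑ i, {w i})
  | good {d n : ℕ} (w : Fin n → ℕ) (hn : 4 ≤ n) (hs : Standard d w) (h : Good N0 d w) :
      Settled N0 d (∑ i, {w i})
  | addZero {d : ℕ} {M : Multiset ℕ} (h : Settled N0 d M) : Settled N0 d (M + {0})
  | dropZero {d : ℕ} {M : Multiset ℕ} (h : Settled N0 d (M + {0})) : Settled N0 d M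
  | simple {d : ℕ} {M : Multiset ℕ} (h : Settled N0 d M) : Settled N0 d (M + {1})
  | smaller {d n : ℕ} {v w : Fin n → ℕ} (hw : ∀ i, w i ≤ v i)
      (hc : ∑ i, (v i + 1).choose 2 ≤ (d + 2).choose 2) (h : Settled N0 d (∑ i, {v i})) :
      Settled N0 d (∑ i, {w i})
  | larger {d n : ℕ} {v w : Fin n → ℕ} (hw : ∀ i, w i ≤ v i)
      (hc : (d + 2).choose 2 ≤ ∑ i, (w i + 1).choose 2) (h : Settled N0 d (∑ i, {w i})) :
      Settled N0 d (∑ i, {v i})
  | up {d e : ℕ} {M : Multiset ℕ} (he : d ≤ e) (hc : cond M ≤ (d + 2).choose 2)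
      (h : Settled N0 d M) : Settled N0 e M
  | down {d e : ℕ} {M : Multiset ℕ} (he : e ≤ d) (hc : (d + 2).choose 2 ≤ cond M)
      (h : Settled N0 d M) : Settled N0 e M
  /-- quadratic transformations -/
  | quad {d a b c : ℕ} {M : Multiset ℕ} (h1 : a + b ≤ d) (h2 : a + c ≤ d) (h3 : b + c ≤ d)
      (h : Settled N0 (2 * d - (a + b + c)) ({d - (b + c), d - (a + c), d - (a + b)} + M)) :
      Settled N0 d ({a, b, c} + M)
  /-- the line through two points -/
  | line {d a b : ℕ} {M : Multiset ℕ} (hd : 1 ≤ d) (ha : 1 ≤ a) (hb : 1 ≤ b) (h1 : d + 1 ≤ a + b)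
      (hc : a + b = d + 1 ∨ (d + 1).choose 2 ≤ cond ({a - 1, b - 1} + M))
      (h : Settled N0 (d - 1) ({a - 1, b - 1} + M)) : Settled N0 d ({a, b} + M)
  /-- gluing -/
  | glue {d r : ℕ} (v : Fin r → Multiset ℕ) (c : Fin r → ℕ)
      (h1 : ∀ k, (c k).choose 2 ≤ cond (v k)) (h2 : ∀ k, cond (v k) ≤ (c k + 1).choose 2)
      (h3 : ∀ k e, (e + 1 = c k ∨ e + 2 = c k) → Settled N0 e (v k))
      (h : ∀ u : Fin r → ℕ, (∀ k, u k = c k ∨ u k + 1 = c k) → Settled N0 d (∑ k, {u k})) :
      Settled N0 d (∑ k, v k)

section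

open Pool.Agent.TH641.UM Pool.Agent.TH2.NU Pool.Agent.J4.H25.Gl Pool.Agent.W609.CR
  Pool.Agent.TH167.SH

theorem ms_append {m n : ℕ} (x : Fin m → ℕ) (v : Fin n → ℕ) :
    ms (Fin.append x v) = ms x + ms v := by
  unfold ms
  rw [Fin.sum_univ_add]
  simp only [Fin.append_left, Fin.append_right]

theorem ms_map {n : ℕ} (u : Fin n → ℕ) : Multiset.map u Finset.univ.val = ms u := by
  unfold ms
  exact (Multiset.sum_map_singleton _).symm.trans (by rw [Multiset.map_map]; rfl)

theorem cond_eq (M : Multiset ℕ) : cond M = TH2.NU.condM M := rfl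

theorem sgn_nineM {d : ℕ} {M : Multiset ℕ} (h9 : (M.filter fun a => 2 < a).card ≤ 9)
    (h : ∀ T ≤ M, T.card ≤ 3 → T.sum ≤ d) : Sgn M d := by
  classical
  obtain ⟨n, u, rfl⟩ : ∃ (n : ℕ) (u : Fin n → ℕ), ms u = M := ⟨_, _, exists_fam M⟩
  refine sgn_nine u u (fun _ => le_rfl) (fun T hT => ?_) ?_
  · have h1 : Multiset.map u T.val ≤ ms u := by
      rw [← ms_map]
      exact Multiset.map_le_map (Finset.val_le_iff.2 (Finset.subset_univ T))
    have h2 := h _ h1 (by rw [Multiset.card_map]; exact hT)
    exact h2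
  · rw [← ms_map, Multiset.filter_map, Multiset.card_map] at h9
    exact h9

theorem sgn_quadM {d a b c : ℕ} {M : Multiset ℕ} (h1 : a + b ≤ d) (h2 : a + c ≤ d)
    (h3 : b + c ≤ d)
    (h : Sgn ({d - (b + c), d - (a + c), d - (a + b)} + M) (2 * d - (a + b + c))) :
    Sgn ({a, b, c} + M) d := by
  classical
  obtain ⟨n, u, rfl⟩ : ∃ (n : ℕ) (u : Fin n → ℕ), ms u = M := ⟨_, _, exists_fam M⟩
  have e3 : ∀ x y z : ℕ, ms ![x, y, z] = {x, y, z} := by
    intro x y z
    unfold ms
    rw [Fin.sum_univ_three]
    simp only [Matrix.cons_val_zero, Matrix.cons_val_one, Matrix.cons_val]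
    rfl
  have hi : Function.Injective (Fin.castAdd n : Fin 3 → Fin (3 + n)) := Fin.castAdd_injective 3 n
  have w0 : (Fin.append ![a, b, c] u) (Fin.castAdd n 0) = a := by rw [Fin.append_left]; rfl
  have w1 : (Fin.append ![a, b, c] u) (Fin.castAdd n 1) = b := by rw [Fin.append_left]; rfl
  have w2 : (Fin.append ![a, b, c] u) (Fin.castAdd n 2) = c := by rw [Fin.append_left]; rfl
  have e4 : wcr d (Fin.castAdd n : Fin 3 → Fin (3 + n)) (Fin.append ![a, b, c] u) =
      Fin.append ![d - (b + c), d - (a + c), d - (a + b)] u := by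
    funext j
    unfold wcr
    rw [w0, w1, w2]
    refine Fin.addCases (fun x => ?_) (fun x => ?_) j
    · rw [Fin.append_left]
      have hx : ∀ x : Fin 3, x = 0 ∨ x = 1 ∨ x = 2 := by decide
      rcases hx x with rfl | rfl | rfl
      · rw [if_pos rfl, Fin.append_left]; rfl
      · rw [if_neg (fun h => absurd (hi h) (by decide)), if_pos rfl, Fin.append_left]; rfl
      · rw [if_neg (fun h => absurd (hi h) (by decide)),
          if_neg (fun h => absurd (hi h) (by decide)), if_pos rfl, Fin.append_left]; rfl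
    · have hne : ∀ y : Fin 3, Fin.natAdd 3 x ≠ Fin.castAdd n y := by
        intro y h
        have := congrArg Fin.val h
        rw [Fin.val_natAdd, Fin.val_castAdd] at this
        omega
      rw [if_neg (hne 0), if_neg (hne 1), if_neg (hne 2), Fin.append_right, Fin.append_right]
  have e5 : cd (Fin.castAdd n : Fin 3 → Fin (3 + n)) d (Fin.append ![a, b, c] u) =
      2 * d - (a + b + c) := by
    unfold cd
    rw [w0, w1, w2]
  have h4 := sgn_quad (w := Fin.append ![a, b, c] u) (d := d) hi
    ⟨by rw [w0, w1]; exact h1, by rw [w0, w2]; exact h2, by rw [w1, w2]; exact h3⟩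
    (by rw [e4, e5, ms_append, e3]; exact h)
  rw [ms_append, e3] at h4
  exact h4

theorem sgn_lineM {d a b : ℕ} {M : Multiset ℕ} (hd : 1 ≤ d) (ha : 1 ≤ a) (hb : 1 ≤ b)
    (h1 : d + 1 ≤ a + b)
    (hc : a + b = d + 1 ∨ (d + 1).choose 2 ≤ cond ({a - 1, b - 1} + M))
    (h : Sgn ({a - 1, b - 1} + M) (d - 1)) : Sgn ({a, b} + M) d := by
  classical
  obtain ⟨n, u, rfl⟩ : ∃ (n : ℕ) (u : Fin n → ℕ), ms u = M := ⟨_, _, exists_fam M⟩
  have e3 : ∀ x y : ℕ, ms ![x, y] = {x, y} := by
    intro x y
    unfold ms
    rw [Fin.sum_univ_two]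
    simp only [Matrix.cons_val_zero, Matrix.cons_val_one]
    rfl
  have w0 : (Fin.append ![a, b] u) (Fin.castAdd n 0) = a := by rw [Fin.append_left]; rfl
  have w1 : (Fin.append ![a, b] u) (Fin.castAdd n 1) = b := by rw [Fin.append_left]; rfl
  have hne : (Fin.castAdd n 0 : Fin (2 + n)) ≠ Fin.castAdd n 1 := fun h =>
    absurd (Fin.castAdd_injective 2 n h) (by decide)
  have e4 : sb (Fin.castAdd n 0) (Fin.castAdd n 1) 1 (Fin.append ![a, b] u) =
      Fin.append ![a - 1, b - 1] u := by
    funext j
    unfold sb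
    refine Fin.addCases (fun x => ?_) (fun x => ?_) j
    · rw [Fin.append_left, Fin.append_left]
      have hx : ∀ x : Fin 2, x = 0 ∨ x = 1 := by decide
      rcases hx x with rfl | rfl
      · rw [if_pos (Or.inl rfl)]; rfl
      · rw [if_pos (Or.inr rfl)]; rfl
    · have hne : ∀ y : Fin 2, Fin.natAdd 2 x ≠ Fin.castAdd n y := by
        intro y h
        have := congrArg Fin.val h
        rw [Fin.val_natAdd, Fin.val_castAdd] at this
        omega
      rw [if_neg (fun h => h.elim (hne 0) (hne 1)), Fin.append_right, Fin.append_right]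
  have h4 := sgn_line (w := Fin.append ![a, b] u) (d := d) hne hd (by rw [w0]; exact ha)
    (by rw [w1]; exact hb) (by rw [w0, w1]; exact h1) (by
      rw [w0, w1, e4]
      refine hc.imp id fun hc => ?_
      unfold Pool.Agent.TH167.SH.chi
      have e5 : ∑ j, ((Fin.append ![a - 1, b - 1] u j + 1).choose 2 : ℤ) =
          ((cond ({a - 1, b - 1} + ms u) : ℕ) : ℤ) := by
        have e6 := cond_condM (Fin.append ![a - 1, b - 1] u)
        rw [ms_append, e3] at e6
        rw [cond_eq, ← e6]
        unfold Pool.Agent.TH603.Sur.cond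
        push_cast
        rfl
      have e7 : d - 1 + 2 = d + 1 := by omega
      rw [e5, e7]
      have : (((d + 1).choose 2 : ℕ) : ℤ) ≤ ((cond ({a - 1, b - 1} + ms u) : ℕ) : ℤ) := by
        exact_mod_cast hc
      linarith)
    (by rw [e4, ms_append, e3]; exact h)
  rw [ms_append, e3] at h4
  exact h4

theorem Settled.sgn {N0 : ℕ} (hN0 : Pool.Agent.Y939.NC.RegExp N0) {d : ℕ} {M : Multiset ℕ}
    (h : Settled N0 d M) : Sgn M d := by
  classical
  induction h with
  | point d b => exact sgn_point b d
  | nine h9 h => exact sgn_nineM h9 h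
  | regular v h => exact sgn_reg hN0 h _
  | @large d n w h =>
    obtain ⟨K, _, _, P, hP⟩ := Pool.Agent.TH167.SH.exists_generic n
    exact sgn_of_generic hP (Pool.Agent.Y205.AV.large_exp h hP)
  | @good d n w hn hs h =>
    obtain ⟨K, _, _, P, hP⟩ := Pool.Agent.TH167.SH.exists_generic n
    exact sgn_of_generic hP (Pool.Agent.Y939.NC.good_exp hN0 hn hs h hP)
  | addZero h ih => exact Sgn_zero.2 ih
  | dropZero h ih => exact Sgn_zero.1 ih
  | simple h ih => exact sgn_simple ih
  | smaller hw hc h ih => exact sgn_below hw hc ih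
  | larger hw hc h ih => exact sgn_above hw hc ih
  | up he hc h ih => exact sgn_up he hc ih
  | down he hc h ih => exact sgn_down he hc ih
  | quad h1 h2 h3 h ih => exact sgn_quadM h1 h2 h3 ih
  | line hd ha hb h1 hc h ih => exact sgn_lineM hd ha hb h1 hc ih
  | @glue d r v c h1 h2 h3 h ih3 ih =>
    refine glue_set _ (fun k => c k - 1) (Finset.univ.filter fun k => 0 < c k) (fun k hk => ?_)
      (fun k hk => ?_) fun u hu hu0 => ?_
    · have h0 := (Finset.mem_filter.1 hk).2
      refine ⟨?_, ?_, fun e he => ih3 k e (by omega)⟩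
      · rw [show c k - 1 + 1 = c k by omega]
        exact h1 k
      · rw [show c k - 1 + 2 = c k + 1 by omega]
        exact h2 k
    · have h0 : c k = 0 := by
        by_contra hne
        exact hk (Finset.mem_filter.2 ⟨Finset.mem_univ _, Nat.pos_of_ne_zero hne⟩)
      have h4 := h2 k
      rw [h0] at h4
      exact Nat.le_zero.1 h4
    · refine ih u fun k => ?_
      rcases Nat.eq_zero_or_pos (c k) with h0 | h0
      · left
        rw [h0]
        refine hu0 k fun hk => ?_
        have := (Finset.mem_filter.1 hk).2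
        omega
      · rcases hu k (Finset.mem_filter.2 ⟨Finset.mem_univ _, h0⟩) with h4 | h4
        · right
          omega
        · left
          omega

end

theorem result : ∃ N0 : ℕ, ∀ (k : Type) [Field k] [CharZero k] (s : ℕ)
    (P : Fin s → Fin 2 → k),
      AlgebraicIndependent ℚ (fun ij : Fin s × Fin 2 => P ij.1 ij.2) →
      (∀ (d : ℕ) (w : Fin s → ℕ), Settled N0 d (∑ i, {w i}) →
        dimL P d w = max (virtdim d w) (-1)) ∧
      (4 ≤ s → ∀ (d : ℕ) (w : Fin s → ℕ) (C : MvPolynomial (Fin 3) k), Curve P C d w →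
        hOne P d w = 0 ∨ ∃ (d1 : ℕ) (w1 : Fin s → ℕ),
          Relation.ReflTransGen Quadratic (d, w) (d1, w1) ∧ Standard d1 w1 ∧
          Special P d1 w1 ∧ dimL P d1 w1 = dimL P d w ∧ ¬ Settled N0 d1 (∑ i, {w1 i})) := by
  obtain ⟨N0, hN0⟩ := Pool.Agent.Y939.NC.reg_exp
  refine ⟨N0, fun k _ _ s P hP => ⟨fun d w h => ?_, fun hs d w C hC => ?_⟩⟩
  · have h1 : Pool.Agent.H932R3.ExpDim k w P d := Pool.Agent.J4.H25.Gl.exp_of_sgn (h.sgn hN0) hP
    rw [Pool.Agent.TH442.NF.expDim_iff] at h1
    rw [Pool.Agent.TH167.SH.dimL_eq, Pool.Agent.TH167.SH.virtdim_eq, h1]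
    rcases le_total 0 (Pool.Agent.TH167.SH.chi d w) with h3 | h3
    · rw [max_eq_right h3, max_eq_left (by omega)]
    · rw [max_eq_left h3, max_eq_right (by omega)]
      rfl
  · obtain ⟨r, rfl⟩ : ∃ r, s = r + 4 := ⟨s - 4, by omega⟩
    by_cases h : dimL P d w = virtdim d w
    · left
      unfold hOne
      omega
    · right
      exact Pool.Agent.Y536.SH.prime_full (Q := fun d' w' => Settled N0 d' (∑ i, {w' i}))
        (fun hP d1 w1 _ hG => Pool.Agent.J4.H25.Gl.exp_of_sgn (hG.sgn hN0) hP) hP hC h

end Pool.Agent.Results.MP_0dccba_ag.SettledClasses
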